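import Mathlib
import Pool.Agent.H.MP_8d2225_pr.Disc

namespace Pool.Agent.Results.MP_8d2225_pr.NoCutoff

open Filter Topology Pool.Agent.H.MP_8d2225_pr

theorem result : ∃ (G : ℕ → Type) (_ : ∀ n, AddCommGroup (G n)) (_ : ∀ n, Fintype (G n))
    (_ : ∀ n, DecidableEq (G n)) (S : ∀ n, Finset (G n)),
    Tendsto (fun n => Fintype.card (G n)) atTop atTop ∧
    (∀ n, (∀ x ∈ S n, -x ∈ S n) ∧ 0 ∉ S n ∧ AddSubgroup.closure (S n : Set (G n)) = ⊤) ∧
    Tendsto (fun n => (tmix (W (1 / 2) (S n)) (1 / 4) : ℝ) / trel (W (1 / 2) (S n))) atTop atTop ∧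
    ¬ ∀ ε ∈ Set.Ioo (0 : ℝ) (1 / 2), Tendsto (fun n =>
      (tmix (W (1 / 2) (S n)) ε : ℝ) / tmix (W (1 / 2) (S n)) (1 - ε)) atTop (𝓝 1) := by
  choose G i1 i2 i3 S h using fun n => pack (n + 2) (12 * (n + 2)) (by omega)
  refine ⟨G, i1, i2, i3, S, ?_, fun n => ⟨(h n).symm, (h n).zero, (h n).gen⟩,
    to_top fun n => ((h n).lazy (by omega)).1, fun hc => ?_⟩
  · exact tendsto_atTop_mono (fun n => (h n).card) (tendsto_add_atTop_nat 2)
  · exact not_one (fun n => ((h n).lazy (by omega)).2) (hc (1 / 4) (by norm_num))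

end Pool.Agent.Results.MP_8d2225_pr.NoCutoff
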